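import Pool.Agent.Q85.VL.Defs
import Pool.Agent.Q128.CC.Ana

/-!
Project VL, part VL-10 (helper969): quantitative analytic continuation along the surface of a cube,
the statement `StmAnaS`.
-/

set_option autoImplicit false

open MeasureTheory Set Metric
open scoped ContDiff

namespace Run7.h969.VL

open H459R3.NS Pool.Agent.W268.NS Pool.Agent.Q67.VD Pool.Agent.Q85.CC Pool.Agent.Q85.CL
open Pool.Agent.Q128.CC
open Pool.Agent.Q85.VL (StmAnaS Shell)

/-- The iterated derivative in the direction `d`. -/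
theorem dd_iter_sq' (d : V) (n : ℕ) : ∀ (f : V → ℝ), ContDiff ℝ ∞ f → ∀ y,
    ((dd d)^[n] f y) ^ 2 ≤ (d ⬝ᵥ d) ^ n * SQ n f y := by
  induction n with
  | zero =>
    intro f _ y
    rw [pow_zero, one_mul]
    exact le_refl _
  | succ n ih =>
    intro f hf y
    have h1 : (dd d)^[n + 1] f y = ∑ i, d i * (dd d)^[n] (pd i f) y := by
      rw [Function.iterate_succ_apply]
      exact congrFun (dd_iter_lin d n (fun i => pd i f) fun i => pd_smooth' hf i) y
    rw [h1]
    refine (Finset.sum_mul_sq_le_sq_mul_sq Finset.univ (fun i => d i)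
      (fun i => (dd d)^[n] (pd i f) y)).trans ?_
    have h2 : ∑ i, d i ^ 2 = d ⬝ᵥ d := by
      unfold dotProduct
      exact Finset.sum_congr rfl fun i _ => sq (d i)
    have h0 : 0 ≤ d ⬝ᵥ d := by
      rw [← h2]
      exact Finset.sum_nonneg fun i _ => sq_nonneg _
    rw [h2, pow_succ, mul_comm ((d ⬝ᵥ d) ^ n), mul_assoc]
    apply mul_le_mul_of_nonneg_left _ h0
    show ∑ i, (dd d)^[n] (pd i f) y ^ 2 ≤ (d ⬝ᵥ d) ^ n * ∑ i, SQ n (pd i f) y
    rw [Finset.mul_sum]
    exact Finset.sum_le_sum fun i _ => ih (pd i f) (pd_smooth' hf i) y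

/-- The vorticity is small near `p`, at the scale `r`. -/
def Sm (v : V → V) (r η β : ℝ) (p : V) : Prop :=
  ∀ y, ‖y - p‖ ≤ η * r → ∀ i j : Fin 3, Idx i j → r ^ 2 * |cur i j v y| ≤ β

/-- Continuation along a segment of good points. -/
theorem seg (c h η ε : ℝ) (hc : 1 ≤ c) (hh : 0 < h) (hη : 0 < η) (hηh : η ≤ h) (hη1 : η ≤ 1)
    (hε : 0 < ε) :
    ∃ β : ℝ, 0 < β ∧ ∀ (v : V → V) (p q : V) (r : ℝ), SM v → 0 < r → ‖q - p‖ ≤ r / 4 →
      (∀ t ∈ Icc (0 : ℝ) 1, Gd c (h * r) v (p + t • (q - p))) →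
      Sm v r η β p → Sm v r (η / 2) ε q := by
  obtain ⟨β, hβ, hcont⟩ := cont (c / h ^ 2) (c / h) (η / 2) 1 (by positivity) (by positivity)
    (by positivity) (by linarith) ε hε
  refine ⟨β, hβ, ?_⟩
  intro v p q r hv hr hpq hG hS y hy i j hij
  have hf := cur_smooth hv i j
  obtain ⟨d, hd⟩ : ∃ d, d = q - p := ⟨_, rfl⟩
  obtain ⟨w, hw⟩ : ∃ w, w = y - q := ⟨_, rfl⟩
  have hwn : ‖w‖ ≤ η / 2 * r := by rw [hw]; exact hy
  have hdd : d ⬝ᵥ d ≤ r ^ 2 := by
    have h1 := dot_self_le d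
    have h2 : ‖d‖ ≤ r / 4 := by rw [hd]; exact hpq
    have h3 : ‖d‖ ^ 2 ≤ (r / 4) ^ 2 := pow_le_pow_left₀ (norm_nonneg _) h2 2
    have h4 : 0 < r ^ 2 := by positivity
    linarith
  have hdd0 : 0 ≤ d ⬝ᵥ d := by
    rw [dot3]
    nlinarith [sq_nonneg (d 0), sq_nonneg (d 1), sq_nonneg (d 2)]
  have hchain : Chain (fun n t => r ^ 2 * (dd d)^[n] (cur i j v) (p + w + t • d)) := by
    intro n t
    have h1 := (line_deriv (dd_iter_smooth hf d n) (p + w) d 1 t).const_mul (r ^ 2)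
    simp only [one_mul] at h1
    rw [← Function.iterate_succ_apply' (dd d) n (cur i j v)] at h1
    exact h1
  have h1 := hcont _ hchain (fun n t ht => ?_) (fun t ht => ?_) 1 ⟨zero_le_one, le_rfl⟩
  · simp only [Function.iterate_zero, id_eq, one_smul] at h1
    have h2 : p + w + d = y := by
      rw [hd, hw]
      abel
    rw [h2, abs_mul, abs_of_pos (by positivity : (0 : ℝ) < r ^ 2)] at h1
    exact h1
  · -- the bounds
    have h2 := hG t ht
    have h3 : p + w + t • d ∈ ball (p + t • (q - p)) (h * r) := by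
      rw [mem_ball, dist_eq_norm]
      have h4 : p + w + t • d - (p + t • (q - p)) = w := by
        rw [hd]
        abel
      rw [h4]
      have h5 : η * r ≤ h * r := mul_le_mul_of_nonneg_right hηh hr.le
      have h6 : 0 < η * r := by positivity
      linarith
    have h4 := (dd_iter_sq' d n (cur i j v) hf _).trans
      (mul_le_mul_of_nonneg_left (h2 _ h3 n i j) (pow_nonneg hdd0 n))
    have h5 : (d ⬝ᵥ d) ^ n ≤ (r ^ n) ^ 2 := by
      rw [← pow_mul, mul_comm n 2, pow_mul]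
      exact pow_le_pow_left₀ hdd0 hdd n
    have h6 : ((dd d)^[n] (cur i j v) (p + w + t • d)) ^ 2 ≤
        (r ^ n * (c ^ (n + 1) * n.factorial / (h * r) ^ (n + 2))) ^ 2 := by
      refine h4.trans ?_
      rw [mul_pow (r ^ n)]
      exact mul_le_mul_of_nonneg_right h5 (by positivity)
    have h7 := abs_le_of_sq_le_sq h6 (by positivity)
    show |r ^ 2 * (dd d)^[n] (cur i j v) (p + w + t • d)| ≤ _
    rw [abs_mul, abs_of_pos (by positivity : (0 : ℝ) < r ^ 2)]
    refine (mul_le_mul_of_nonneg_left h7 (by positivity)).trans (le_of_eq ?_)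
    rw [mul_pow h r, div_pow]
    field_simp
    ring
  · -- the small part
    show |r ^ 2 * (dd d)^[0] (cur i j v) (p + w + t • d)| ≤ _
    simp only [Function.iterate_zero, id_eq]
    rw [abs_mul, abs_of_pos (by positivity : (0 : ℝ) < r ^ 2)]
    apply hS _ _ i j hij
    have h2 : p + w + t • d - p = w + t • d := by abel
    rw [h2]
    refine (norm_add_le _ _).trans ?_
    rw [norm_smul, Real.norm_eq_abs, abs_of_nonneg ht.1]
    have h3 : ‖d‖ ≤ r / 4 := by rw [hd]; exact hpq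
    have h4 : t * ‖d‖ ≤ η / 2 * r := by
      calc t * ‖d‖ ≤ (η / 2) * (r / 4) := mul_le_mul ht.2 h3 (norm_nonneg _) (by positivity)
        _ ≤ η / 2 * r := mul_le_mul_of_nonneg_left (by linarith) (by positivity)
    linarith

/-- Continuation along a chain of segments. -/
theorem segs (c h : ℝ) (hc : 1 ≤ c) (hh : 0 < h) (n : ℕ) : ∀ η ε : ℝ, 0 < η → η ≤ h → η ≤ 1 →
    0 < ε → ∃ β : ℝ, 0 < β ∧ ∀ (v : V → V) (p : ℕ → V) (r : ℝ), SM v → 0 < r →
      (∀ k < n, ‖p (k + 1) - p k‖ ≤ r / 4) →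
      (∀ k < n, ∀ t ∈ Icc (0 : ℝ) 1, Gd c (h * r) v (p k + t • (p (k + 1) - p k))) →
      Sm v r η β (p 0) → Sm v r (η / 2 ^ n) ε (p n) := by
  induction n with
  | zero =>
    intro η ε _ _ _ hε
    refine ⟨ε, hε, fun v p r _ _ _ _ h => ?_⟩
    rw [pow_zero, div_one]
    exact h
  | succ n ih =>
    intro η ε hη hηh hη1 hε
    obtain ⟨β, hβ, h1⟩ := ih (η / 2) ε (by positivity) (by linarith) (by linarith) hε
    obtain ⟨β', hβ', h2⟩ := seg c h η β hc hh hη hηh hη1 hβ
    refine ⟨β', hβ', ?_⟩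
    intro v p r hv hr hp hG hS
    have h3 := h2 v (p 0) (p 1) r hv hr (hp 0 (by omega)) (hG 0 (by omega)) hS
    have h4 := h1 v (fun k => p (k + 1)) r hv hr (fun k hk => hp (k + 1) (by omega))
      (fun k hk => hG (k + 1) (by omega)) h3
    have h5 : η / 2 / 2 ^ n = η / 2 ^ (n + 1) := by
      rw [pow_succ]
      field_simp
    rw [h5] at h4
    exact h4

/-- A small integral makes the vorticity small near a good point. -/
theorem small0 (c h b : ℝ) (hc : 1 ≤ c) (hh : 0 < h) (hb : 0 < b) :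
    ∃ η : ℝ, 0 < η ∧ η ≤ h ∧ η ≤ 1 ∧ ∀ β : ℝ, 0 < β → ∃ τ : ℝ, 0 < τ ∧
      ∀ (v : V → V) (z : V) (r : ℝ), SM v → 0 < r → Gd c (h * r) v z →
        ∫ y in closedBall z (b * r), om v y ≤ τ * r → Sm v r η β z := by
  obtain ⟨η, hη⟩ : ∃ η : ℝ, η = min 1 (min (h / 4) (b / 4)) := ⟨_, rfl⟩
  have hη1 : η ≤ 1 := by rw [hη]; exact min_le_left _ _
  have hη2 : η ≤ h / 4 := by rw [hη]; exact (min_le_right _ _).trans (min_le_left _ _)
  have hη3 : η ≤ b / 4 := by rw [hη]; exact (min_le_right _ _).trans (min_le_right _ _)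
  have hη0 : 0 < η := by rw [hη]; refine lt_min one_pos (lt_min (by positivity) (by positivity))
  refine ⟨η, hη0, by linarith, hη1, ?_⟩
  intro β hβ
  obtain ⟨δ, hδ⟩ : ∃ δ : ℝ, δ = min η (β * h ^ 3 / (6 * c ^ 2)) := ⟨_, rfl⟩
  have hδ1 : δ ≤ η := by rw [hδ]; exact min_le_left _ _
  have hδ2 : δ ≤ β * h ^ 3 / (6 * c ^ 2) := by rw [hδ]; exact min_le_right _ _
  have hδ0 : 0 < δ := by rw [hδ]; exact lt_min hη0 (by positivity)
  refine ⟨β * δ ^ 3, by positivity, ?_⟩
  intro v z r hv hr hG hint y hy i j hij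
  by_contra hcon
  push Not at hcon
  have hyb : y ∈ ball z (h * r) := by
    rw [mem_ball, dist_eq_norm]
    have h1 : η * r ≤ h / 4 * r := mul_le_mul_of_nonneg_right hη2 hr.le
    have h2 : 0 < h * r := by positivity
    linarith
  have hEz : ∀ w ∈ closedBall y (δ * r), β / (2 * r ^ 2) ≤ om v w := by
    intro w hw
    rw [mem_closedBall, dist_eq_norm] at hw
    have hwb : w ∈ ball z (h * r) := by
      rw [mem_ball, dist_eq_norm]
      have h0 : w - z = (w - y) + (y - z) := by abel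
      rw [h0]
      have h1 : η * r ≤ h / 4 * r := mul_le_mul_of_nonneg_right hη2 hr.le
      have h2 : 0 < h * r := by positivity
      have h3 : δ * r ≤ η * r := mul_le_mul_of_nonneg_right hδ1 hr.le
      have := norm_add_le (w - y) (y - z)
      linarith
    have h1 := cur_lip hv hc (by positivity) hG hyb hwb i j
    have h2 : 3 * (c ^ 2 / (h * r) ^ 3) * ‖w - y‖ ≤ β / (2 * r ^ 2) := by
      calc 3 * (c ^ 2 / (h * r) ^ 3) * ‖w - y‖ ≤ 3 * (c ^ 2 / (h * r) ^ 3) * (δ * r) :=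
            mul_le_mul_of_nonneg_left hw (by positivity)
        _ = 3 * c ^ 2 / (h ^ 3 * r ^ 2) * δ := by
            field_simp
        _ ≤ 3 * c ^ 2 / (h ^ 3 * r ^ 2) * (β * h ^ 3 / (6 * c ^ 2)) :=
            mul_le_mul_of_nonneg_left hδ2 (by positivity)
        _ = β / (2 * r ^ 2) := by
            field_simp
            ring
    have h3 : β / r ^ 2 < |cur i j v y| := by
      rw [div_lt_iff₀ (by positivity)]
      linarith
    have h4 := abs_sub_abs_le_abs_sub (cur i j v y) (cur i j v w)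
    rw [abs_sub_comm] at h4
    have h5 := cur_le_om v w hij
    have h6 : β / r ^ 2 = 2 * (β / (2 * r ^ 2)) := by
      field_simp
    linarith
  have hsub : closedBall y (δ * r) ⊆ closedBall z (b * r) := by
    apply closedBall_subset_closedBall'
    rw [dist_eq_norm]
    have h3 : δ * r ≤ η * r := mul_le_mul_of_nonneg_right hδ1 hr.le
    have h4 : η * r ≤ b / 4 * r := mul_le_mul_of_nonneg_right hη3 hr.le
    have h5 : 0 < b * r := by positivity
    linarith
  have hcont := om_cont' hv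
  have hInt : IntegrableOn (om v) (closedBall z (b * r)) :=
    hcont.continuousOn.integrableOn_compact (isCompact_closedBall _ _)
  have hvol : (volume (closedBall y (δ * r))).toReal = (2 * (δ * r)) ^ 3 := by
    rw [Real.volume_pi_closedBall y (by positivity), ENNReal.toReal_ofReal (by positivity)]
    simp
  have hEfin : volume (closedBall y (δ * r)) ≠ ⊤ := measure_closedBall_lt_top.ne
  have h1 : ∫ w in closedBall y (δ * r), om v w ≤ ∫ w in closedBall z (b * r), om v w :=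
    setIntegral_mono_set hInt (Filter.Eventually.of_forall fun z => om_nonneg' v z)
      (Filter.Eventually.of_forall hsub)
  have h2 : β / (2 * r ^ 2) * (2 * (δ * r)) ^ 3 ≤ ∫ w in closedBall y (δ * r), om v w := by
    have h3 : ∫ _ in closedBall y (δ * r), β / (2 * r ^ 2) ≤ ∫ w in closedBall y (δ * r), om v w :=
      setIntegral_mono_on (integrableOn_const hEfin) (hInt.mono_set hsub)
        isClosed_closedBall.measurableSet hEz
    rw [setIntegral_const, smul_eq_mul] at h3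
    have h4 : (volume.real (closedBall y (δ * r))) = (2 * (δ * r)) ^ 3 := hvol
    rw [h4] at h3
    linarith
  have h4 : β / (2 * r ^ 2) * (2 * (δ * r)) ^ 3 = 4 * (β * δ ^ 3 * r) := by
    field_simp
    ring
  rw [h4] at h2
  have h5 : 0 < β * δ ^ 3 * r := by positivity
  linarith

/-- A segment in the surface of a cube. -/
lemma seg_surf {x p q : V} {s : ℝ} (hp : ‖p - x‖ ≤ s) (hq : ‖q - x‖ ≤ s) (i : Fin 3)
    (hi : p i = q i) (hs : |p i - x i| = s) {t : ℝ} (ht : t ∈ Icc (0 : ℝ) 1) :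
    ‖p + t • (q - p) - x‖ = s := by
  apply le_antisymm
  · have h1 : p + t • (q - p) - x = (1 - t) • (p - x) + t • (q - x) := by
      rw [sub_smul, one_smul, smul_sub, smul_sub, smul_sub]
      abel
    rw [h1]
    refine (norm_add_le _ _).trans ?_
    rw [norm_smul, norm_smul, Real.norm_eq_abs, Real.norm_eq_abs, abs_of_nonneg ht.1,
      abs_of_nonneg (by linarith [ht.2] : (0 : ℝ) ≤ 1 - t)]
    have h2 : (1 - t) * ‖p - x‖ ≤ (1 - t) * s :=
      mul_le_mul_of_nonneg_left hp (by linarith [ht.2])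
    have h3 : t * ‖q - x‖ ≤ t * s := mul_le_mul_of_nonneg_left hq ht.1
    linarith
  · have h1 := abs_coord_le (p + t • (q - p) - x) i
    have h2 : (p + t • (q - p) - x) i = p i - x i := by
      simp only [Pi.sub_apply, Pi.add_apply, Pi.smul_apply, smul_eq_mul]
      rw [← hi, sub_self, mul_zero, add_zero]
    rw [h2, hs] at h1
    exact h1

/-- The sign. -/
noncomputable def sg (a : ℝ) : ℝ := if 0 ≤ a then 1 else -1

lemma sg_abs (a : ℝ) : |sg a| = 1 := by
  unfold sg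
  split_ifs <;> simp

lemma sg_mul {a s : ℝ} (h : |a| = s) : s * sg a = a := by
  unfold sg
  split_ifs with h1
  · rw [← h, abs_of_nonneg h1, mul_one]
  · rw [← h, abs_of_neg (not_le.1 h1)]
    ring

/-- The corner of the cube with the signs `σ`. -/
noncomputable def cn (x : V) (s : ℝ) (σ : V) : V := fun i => x i + s * σ i

lemma cn_norm {x : V} {s : ℝ} (hs : 0 ≤ s) {σ : V} (hσ : ∀ i, |σ i| = 1) : ‖cn x s σ - x‖ ≤ s := by
  rw [pi_norm_le_iff_of_nonneg hs]
  intro i
  rw [Real.norm_eq_abs]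
  show |x i + s * σ i - x i| ≤ s
  rw [add_sub_cancel_left, abs_mul, hσ i, mul_one, abs_of_nonneg hs]

lemma cn_abs {x : V} {s : ℝ} (hs : 0 ≤ s) {σ : V} (hσ : ∀ i, |σ i| = 1) (i : Fin 3) :
    |cn x s σ i - x i| = s := by
  show |x i + s * σ i - x i| = s
  rw [add_sub_cancel_left, abs_mul, hσ i, mul_one, abs_of_nonneg hs]

lemma exists_coord {x z : V} {s : ℝ} (h : ‖z - x‖ = s) : ∃ i, |z i - x i| = s := by
  obtain ⟨i, hi⟩ := Finite.exists_max fun i => ‖(z - x) i‖
  refine ⟨i, ?_⟩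
  apply le_antisymm
  · rw [← h]
    exact abs_coord_le (z - x) i
  · rw [← h, pi_norm_le_iff_of_nonneg (abs_nonneg _)]
    intro j
    exact hi j

/-- Mixed signs. -/
def mix (k : ℕ) (σ τ : V) : V := fun i => if i.val < k then τ i else σ i

lemma mix_abs (k : ℕ) {σ τ : V} (hσ : ∀ i, |σ i| = 1) (hτ : ∀ i, |τ i| = 1) (i : Fin 3) :
    |mix k σ τ i| = 1 := by
  unfold mix
  split_ifs
  · exact hτ i
  · exact hσ i

theorem stmAnaS : StmAnaS := by
  intro c h ε b hc hh hh1 hε hb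
  obtain ⟨η, hη, hηh, hη1, hsmall⟩ := small0 c h b hc hh hb
  obtain ⟨β, hβ, hseg⟩ := segs c h hc hh 5 η (ε / 3) hη hηh hη1 (by positivity)
  obtain ⟨τ, hτ, hsm⟩ := hsmall β hβ
  refine ⟨τ, min (η / 32) (1 / 128), hτ, lt_min (by positivity) (by norm_num),
    (min_le_left _ _).trans (by linarith), ?_⟩
  intro v x z r s hv hr hs1 hs2 hG hz hint y hy
  have hs0 : 0 < s := by linarith
  have hy1 : |‖y - x‖ - s| ≤ η / 32 * r :=
    hy.trans (mul_le_mul_of_nonneg_right (min_le_left _ _) hr.le)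
  have hy2 : |‖y - x‖ - s| ≤ 1 / 128 * r :=
    hy.trans (mul_le_mul_of_nonneg_right (min_le_right _ _) hr.le)
  have hyx : 0 < ‖y - x‖ := by
    have := (abs_le.1 hy2).1
    linarith
  obtain ⟨q, hq⟩ : ∃ q : V, q = x + (s / ‖y - x‖) • (y - x) := ⟨_, rfl⟩
  have hqx : ‖q - x‖ = s := by
    rw [hq, add_sub_cancel_left, norm_smul, Real.norm_eq_abs, abs_of_pos (by positivity)]
    field_simp
  have hyq : ‖y - q‖ ≤ η / 32 * r := by
    have h1 : y - q = (1 - s / ‖y - x‖) • (y - x) := by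
      rw [hq, sub_smul, one_smul]
      abel
    rw [h1, norm_smul, Real.norm_eq_abs]
    have h2 : |1 - s / ‖y - x‖| * ‖y - x‖ = |‖y - x‖ - s| := by
      have h3 : ‖y - x‖ - s = (1 - s / ‖y - x‖) * ‖y - x‖ := by field_simp
      rw [h3, abs_mul, abs_of_pos hyx]
    rw [h2]
    exact hy1
  -- the corners
  obtain ⟨σ, hσd⟩ : ∃ σ : V, σ = fun i => sg (z i - x i) := ⟨_, rfl⟩
  obtain ⟨ς, hςd⟩ : ∃ ς : V, ς = fun i => sg (q i - x i) := ⟨_, rfl⟩
  have hσ : ∀ i, |σ i| = 1 := fun i => by rw [hσd]; exact sg_abs _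
  have hς : ∀ i, |ς i| = 1 := fun i => by rw [hςd]; exact sg_abs _
  have hm : ∀ k i, |mix k σ ς i| = 1 := fun k i => mix_abs k hσ hς i
  obtain ⟨p, hp⟩ : ∃ p : ℕ → V, p = fun k => match k with
    | 0 => z
    | 1 => cn x s (mix 0 σ ς)
    | 2 => cn x s (mix 1 σ ς)
    | 3 => cn x s (mix 2 σ ς)
    | 4 => cn x s (mix 3 σ ς)
    | _ => q := ⟨_, rfl⟩
  have hp0 : p 0 = z := congrFun hp 0
  have hp1 : p 1 = cn x s (mix 0 σ ς) := congrFun hp 1
  have hp2 : p 2 = cn x s (mix 1 σ ς) := congrFun hp 2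
  have hp3 : p 3 = cn x s (mix 2 σ ς) := congrFun hp 3
  have hp4 : p 4 = cn x s (mix 3 σ ς) := congrFun hp 4
  have hp5 : p 5 = q := congrFun hp 5
  have hpn : ∀ k ≤ 5, ‖p k - x‖ ≤ s := by
    intro k hk
    interval_cases k
    · rw [hp0, hz]
    · rw [hp1]; exact cn_norm hs0.le (hm 0)
    · rw [hp2]; exact cn_norm hs0.le (hm 1)
    · rw [hp3]; exact cn_norm hs0.le (hm 2)
    · rw [hp4]; exact cn_norm hs0.le (hm 3)
    · rw [hp5, hqx]
  have hpd : ∀ k < 5, ‖p (k + 1) - p k‖ ≤ r / 4 := by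
    intro k hk
    have h1 := hpn k (by omega)
    have h2 := hpn (k + 1) (by omega)
    have h3 : p (k + 1) - p k = (p (k + 1) - x) - (p k - x) := by abel
    rw [h3]
    have := norm_sub_le (p (k + 1) - x) (p k - x)
    linarith
  have hpc : ∀ k < 5, ∃ i : Fin 3, p k i = p (k + 1) i ∧ |p k i - x i| = s := by
    intro k hk
    interval_cases k
    · obtain ⟨i, hi⟩ := exists_coord hz
      refine ⟨i, ?_, by rw [hp0]; exact hi⟩
      rw [hp0, hp1]
      show z i = x i + s * mix 0 σ ς i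
      have h1 : mix 0 σ ς i = sg (z i - x i) := by
        unfold mix
        rw [if_neg (by omega), hσd]
      rw [h1, sg_mul hi]
      ring
    · refine ⟨1, ?_, by rw [hp1]; exact cn_abs hs0.le (hm 0) 1⟩
      rw [hp1, hp2]
      simp [cn, mix]
    · refine ⟨0, ?_, by rw [hp2]; exact cn_abs hs0.le (hm 1) 0⟩
      rw [hp2, hp3]
      simp [cn, mix]
    · refine ⟨0, ?_, by rw [hp3]; exact cn_abs hs0.le (hm 2) 0⟩
      rw [hp3, hp4]
      simp [cn, mix]
    · obtain ⟨i, hi⟩ := exists_coord hqx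
      refine ⟨i, ?_, by rw [hp4]; exact cn_abs hs0.le (hm 3) i⟩
      rw [hp4, hp5]
      show x i + s * mix 3 σ ς i = q i
      have h1 : mix 3 σ ς i = sg (q i - x i) := by
        unfold mix
        rw [if_pos i.isLt, hςd]
      rw [h1, sg_mul hi]
      ring
  have hGp : ∀ k < 5, ∀ t ∈ Icc (0 : ℝ) 1, Gd c (h * r) v (p k + t • (p (k + 1) - p k)) := by
    intro k hk t ht
    obtain ⟨i, hi1, hi2⟩ := hpc k hk
    exact hG _ (seg_surf (hpn k (by omega)) (hpn (k + 1) (by omega)) i hi1 hi2 ht)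
  have hS0 : Sm v r η β (p 0) := by
    rw [hp0]
    exact hsm v z r hv hr (hG z hz) hint
  have hS5 := hseg v p r hv hr hpd hGp hS0
  rw [hp5] at hS5
  have hkey : ∀ i j : Fin 3, Idx i j → |cur i j v y| ≤ ε / (3 * r ^ 2) := by
    intro i j hij
    have h1 := hS5 y (hyq.trans (le_of_eq (by norm_num))) i j hij
    rw [le_div_iff₀ (by positivity)]
    linarith
  have h1 := om_le_sum v y (ε / (3 * r ^ 2)) (hkey 1 2 (Or.inl ⟨rfl, rfl⟩))
    (hkey 2 0 (Or.inr (Or.inl ⟨rfl, rfl⟩))) (hkey 0 1 (Or.inr (Or.inr ⟨rfl, rfl⟩)))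
  refine h1.trans (le_of_eq ?_)
  field_simp

end Run7.h969.VL
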