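import Pool.Agent.Run7.h969.VL.Main
import Pool.Agent.Run7.h782.VL.Pin
import Pool.Agent.Q285.CL.WSc
import Pool.Agent.Q95.CL.Far

/-!
Project VL: the theorems (helper969).
-/

set_option autoImplicit false

open MeasureTheory Set Metric Filter Topology
open scoped ContDiff

namespace Run7.h969.VL

open H459R3.NS Pool.Agent.W268.NS Pool.Agent.Q67.VD Pool.Agent.Q85.CC Pool.Agent.Q85.CL
open Pool.Agent.Q85.VL

theorem final (ν T : ℝ) (u : ℝ → V → V) (p : ℝ → V → ℝ) (hν : 0 < ν) :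
    (∀ (E : ℝ) (Ω : Set V), DSl ν T E Ω u p → ∀ a ∈ Ω, Sing T u a → ClosedChains T u a) ∧
    (IsSol ν T u p → ((¬ ∃ B, ∀ t ∈ Ico 0 T, ∀ x, ‖u t x‖ ≤ B) → ∃ a, Sing T u a) ∧
      ∀ a, Sing T u a → ClosedChains T u a) ∧
    ∀ E : ℝ, WSl ν T E u p → (Blow T u → ∃ a, Sing T u a) ∧
      ∀ a, Sing T u a → ClosedChains T u a :=
  ⟨fun _ _ h _ ha hs => chains_D Pool.Agent.Run7.h782.VL.stmPinV hν h ha hs,
    fun h => ⟨sing_unb h, fun _ hs => chains_P Pool.Agent.Run7.h782.VL.stmPinV hν h hs⟩,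
    fun _ h => ⟨sing_whole Pool.Agent.Q95.CL.far Pool.Agent.Q285.CL.wsc hν h,
      fun _ hs => chains_W Pool.Agent.Run7.h782.VL.stmPinV hν h hs⟩⟩

end Run7.h969.VL
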