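import Pool.Agent.Q85.VL.Fin
import Pool.Agent.Q85.VL.Ki
import Pool.Agent.Q85.CL.All
import Pool.Agent.Q284.CL.Vel
import Pool.Agent.Q95.CL.Reg
import Pool.Agent.Q81.CL.L1
import Pool.Agent.Q284.CL.Dom
import Pool.Agent.Run7.h32.VL.Mor
import Pool.Agent.Run7.h32.VL.FC
import Pool.Agent.Run7.h219.VL.Mol
import Pool.Agent.Run7.h219.VL.G
import Pool.Agent.Run7.h969.VL.GoodS
import Pool.Agent.Run7.h969.VL.AnaS

/-!
Project VL: the assembly (helper969).
-/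

set_option autoImplicit false

open MeasureTheory Set Metric Filter Topology
open scoped ContDiff

namespace Run7.h969.VL

open H459R3.NS Pool.Agent.W268.NS Pool.Agent.Q67.VD Pool.Agent.Q85.CC Pool.Agent.Q85.CL
open Pool.Agent.Q85.VL

/-- The local theorem. -/
theorem lyapAll (hPinV : StmPinV) : StmLyap :=
  lyap Pool.Agent.Q284.CL.velL stmEnL stmEnS Pool.Agent.Q95.CL.regK Pool.Agent.Q81.CL.l1L
    stmGoodS stmAnaS Pool.Agent.Run7.h32.VL.stmMorV hPinV ks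

/-- At times arbitrarily close to `T` there are closed chains of vortex arcs near `a`, in the set
in which the vorticity is larger than `m`. -/
def ClosedChains (T : ℝ) (u : ℝ → V → V) (a : V) : Prop :=
  ∀ (T₀ ε R : ℝ) (m : ℝ → V → ℝ), 0 ≤ T₀ → T₀ < T → 0 < ε → 0 < R →
    (∀ t ∈ Ioo T₀ T, Continuous (m t)) → (∀ t ∈ Ioo T₀ T, ∀ y, 0 ≤ m t y) → Kato T₀ T a R m →
    ∃ t ∈ Ioo T₀ T, ∀ θ : V → ℝ, Orient θ a R (vort (u t)) →
      Chained (fun y => θ y • vort (u t) y) {y | ‖y - a‖ ≤ R ∧ m t y < om (u t) y} ε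

theorem chains_D (hPinV : StmPinV) {ν T E : ℝ} {Ω : Set V} {u : ℝ → V → V} {p : ℝ → V → ℝ}
    (hν : 0 < ν) (h : DSl ν T E Ω u p) {a : V} (ha : a ∈ Ω) (hs : Sing T u a) :
    ClosedChains T u a := fun _ _ _ _ hT0 hT₀ hε hR hmc hm0 hK =>
  chain_D (lyapAll hPinV) Run7.h219.VL.stmWd Run7.h219.VL.stmG Run7.h219.VL.stmMol
    Pool.Agent.Q284.CL.dom hν h ha hs hT0 hT₀ hε hR hmc hm0 hK

theorem chains_P (hPinV : StmPinV) {ν T : ℝ} {u : ℝ → V → V} {p : ℝ → V → ℝ}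
    (hν : 0 < ν) (h : IsSol ν T u p) {a : V} (hs : Sing T u a) : ClosedChains T u a := by
  obtain ⟨p', hp'⟩ := perD hν hs.pos h a
  exact chains_D hPinV hν hp' (mem_ball_self (by norm_num)) hs

theorem chains_W (hPinV : StmPinV) {ν T E : ℝ} {u : ℝ → V → V} {p : ℝ → V → ℝ}
    (hν : 0 < ν) (h : WSl ν T E u p) {a : V} (hs : Sing T u a) : ClosedChains T u a :=
  chains_D hPinV hν (whole_D h a) (mem_ball_self (by norm_num)) hs

end Run7.h969.VL
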